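import Pool.Agent.Q283.PQ.Stm
import Pool.Agent.Q184.FG.CGE

/-!
# Project PQ (helper283), job LSS (helper229): the index of the subspace of the strict conditions
-/

set_option autoImplicit false

namespace Pool.Agent.Q229.PQ

open NumberField IsDedekindDomain Finset
open Pool.Agent.Q7.LK Pool.Agent.Q14.LK Pool.Agent.Q283.FG Pool.Agent.Q283.PQ Pool.Agent.Q184.FG
open Pool.Agent.Q283.LQ (Sm nS)
open Pool.Agent.Q283.FT (U2 LocP Rt AX)

/-- a maximal subset of pairwise unrelated elements -/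
theorem reps {α : Type} (B : Finset α) (R : α → α → Prop) (hr : ∀ a ∈ B, R a a)
    (hs : ∀ a ∈ B, ∀ b ∈ B, R a b → R b a) (n : ℕ)
    (hn : ∀ b ∈ B, ∀ A : Finset α, A ⊆ B → (∀ a ∈ A, R a b) → A.card ≤ n) :
    ∃ C : Finset α, C ⊆ B ∧ B.card ≤ n * C.card ∧ ∀ a ∈ C, ∀ b ∈ C, a ≠ b → ¬ R a b := by
  classical
  obtain ⟨P, hP⟩ : ∃ P : Finset α → Prop, ∀ C, P C ↔ ∀ a ∈ C, ∀ b ∈ C, a ≠ b → ¬ R a b := ⟨_, fun _ => Iff.rfl⟩
  obtain ⟨C, hC, hmax⟩ := Finset.exists_max_image (B.powerset.filter P) (fun C => C.card)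
    ⟨∅, mem_filter.2 ⟨mem_powerset.2 (empty_subset _), (hP ∅).2 fun a ha => absurd ha (notMem_empty a)⟩⟩
  rw [mem_filter, mem_powerset, hP] at hC
  refine ⟨C, hC.1, ?_, hC.2⟩
  have hcov : B ⊆ C.biUnion fun c => B.filter fun a => R a c := by
    intro b hb
    rw [mem_biUnion]
    by_contra hno
    have hno' : ∀ c ∈ C, ¬ R b c := by
      intro c hc h
      exact hno ⟨c, hc, mem_filter.2 ⟨hb, h⟩⟩
    have hbC : b ∉ C := fun h => hno' b h (hr b hb)
    have h1 := hmax (insert b C) (by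
      rw [mem_filter, mem_powerset, hP]
      refine ⟨insert_subset hb hC.1, ?_⟩
      intro a ha a' ha' hne
      rcases mem_insert.1 ha with h1 | h1
      · rcases mem_insert.1 ha' with h2 | h2
        · exact absurd (h1.trans h2.symm) hne
        · rw [h1]
          exact hno' a' h2
      · rcases mem_insert.1 ha' with h2 | h2
        · rw [h2]
          exact fun h => hno' a h1 (hs a (hC.1 h1) b hb h)
        · exact hC.2 a h1 a' h2 hne)
    rw [card_insert_of_notMem hbC] at h1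
    omega
  refine (card_le_card hcov).trans (card_biUnion_le.trans ?_)
  refine (sum_le_card_nsmul C _ n fun c hc => hn c (hC.1 hc) _ (filter_subset _ _) fun a ha => (mem_filter.1 ha).2).trans ?_
  rw [smul_eq_mul, mul_comm]

section

variable {F : Type} [Field F] [NumberField F]

theorem nr_sq (hBAS : Pool.Agent.Q7.LK.S_BAS) (y : ℕ) {a : F} (ha : a ≠ 0) : Nr y (a ^ 2) := by
  refine ⟨nn_pp hBAS y ha, fun φ => ?_⟩
  rw [map_pow]
  have h : φ a ≠ 0 := (map_ne_zero φ).2 ha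
  positivity

theorem nr_mul (hBAS : Pool.Agent.Q7.LK.S_BAS) {y : ℕ} {a b : F} (ha : Nr y a) (hb : Nr y b) :
    Nr y (a * b) := by
  refine ⟨nn_mul hBAS ha.1 hb.1, fun φ => ?_⟩
  rw [map_mul]
  exact mul_pos (ha.2 φ) (hb.2 φ)

/-- the class of a quotient -/
theorem cls_sub (hBAS : Pool.Agent.Q7.LK.S_BAS) {y f : ℕ} {u r : Fin f → F} (hu : ∀ l, u l ≠ 0) (hr : ∀ l, r l ≠ 0)
    {a a' : F} (ha' : a' ≠ 0) {x z : (Fin f → ZMod 2) × (Fin f → ZMod 2)} (h : Nr y (a * mon r x.1 * mon u x.2))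
    (h' : Nr y (a' * mon r z.1 * mon u z.2)) :
    Nr y (a / a' * mon r (x - z).1 * mon u (x - z).2) := by
  have hrz := mon_ne hr z.1
  have huz := mon_ne hu z.2
  have hrd := mon_ne hr (x - z).1
  have hud := mon_ne hu (x - z).2
  obtain ⟨s, hs, e1⟩ := mon_add hr (x - z).1 z.1
  obtain ⟨t, ht, e2⟩ := mon_add hu (x - z).2 z.2
  rw [Prod.fst_sub, sub_add_cancel] at e1
  rw [Prod.snd_sub, sub_add_cancel] at e2
  have h1 := nr_mul hBAS (nr_div hBAS h h') (nr_sq hBAS y (mul_ne_zero hs ht))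
  have h2 : a * mon r x.1 * mon u x.2 / (a' * mon r z.1 * mon u z.2) * (s * t) ^ 2 =
      a / a' * mon r (x - z).1 * mon u (x - z).2 := by
    rw [Prod.fst_sub, Prod.snd_sub]
    have e1' : mon r x.1 * s ^ 2 = mon r (x.1 - z.1) * mon r z.1 := e1.symm
    have e2' : mon u x.2 * t ^ 2 = mon u (x.2 - z.2) * mon u z.2 := e2.symm
    calc a * mon r x.1 * mon u x.2 / (a' * mon r z.1 * mon u z.2) * (s * t) ^ 2
        = a * (mon r x.1 * s ^ 2) * (mon u x.2 * t ^ 2) / (a' * mon r z.1 * mon u z.2) := by ring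
      _ = a / a' * mon r (x.1 - z.1) * mon u (x.2 - z.2) := by
          rw [e1', e2']
          field_simp
  rwa [h2] at h1

/-- the local representatives modulo the classes of the torsion points -/
theorem local_reps (hBAS : Pool.Agent.Q7.LK.S_BAS) (hATP : S_ATP) (hIDE : S_IDE) (v : HeightOneSpectrum (𝓞 F))
    (e : Fin 3 → F) (he : Rt e) :
    ∃ C : Finset (F × F), 2 ^ dv 2 v ≤ C.card ∧ (∀ b ∈ C, AX v e b.1 b.2) ∧
      ∀ b ∈ C, ∀ b' ∈ C, b ≠ b' → ¬ ATo v e (b.1 / b'.1) (b.2 / b'.2) := by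
  classical
  obtain ⟨B, hBc, hBA, hBd⟩ := hIDE F v e he
  obtain ⟨t1, t2, -, t4, t5, t6⟩ := hATP F e he v
  have hsym : ∀ a b : F × F, a.1 ≠ 0 → a.2 ≠ 0 → b.1 ≠ 0 → b.2 ≠ 0 → ATo v e (a.1 / b.1) (a.2 / b.2) →
      ATo v e (b.1 / a.1) (b.2 / a.2) := by
    intro a b h1 h2 h3 h4 h
    have h5 := t2 _ _ ((b.1 / a.1) ^ 2) ((b.2 / a.2) ^ 2) (lpw_pow hBAS v (div_ne_zero h3 h1))
      (lpw_pow hBAS v (div_ne_zero h4 h2)) h
    have h6 : a.1 / b.1 * (b.1 / a.1) ^ 2 = b.1 / a.1 := by field_simp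
    have h7 : a.2 / b.2 * (b.2 / a.2) ^ 2 = b.2 / a.2 := by field_simp
    rwa [h6, h7] at h5
  obtain ⟨C, hCB, hCc, hCd⟩ := reps B (fun a b => ATo v e (a.1 / b.1) (a.2 / b.2))
    (by
      intro a ha
      have h := hBA a ha
      show ATo v e (a.1 / a.1) (a.2 / a.2)
      rw [div_self h.1, div_self h.2.1]
      exact t4 _ _ (Or.inl ⟨lpw_one hBAS v, lpw_one hBAS v⟩))
    (by
      intro a ha b hb h
      exact hsym a b (hBA a ha).1 (hBA a ha).2.1 (hBA b hb).1 (hBA b hb).2.1 h) 4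
    (by
      intro b hb A hAB hA
      have hb1 := (hBA b hb).1
      have hb2 := (hBA b hb).2.1
      have hinj : Set.InjOn (fun a : F × F => (a.1 / b.1, a.2 / b.2)) A := by
        intro a _ a' _ h
        have h1 := (Prod.ext_iff.1 h).1
        have h2 := (Prod.ext_iff.1 h).2
        simp only at h1 h2
        exact Prod.ext ((div_left_inj' hb1).1 h1) ((div_left_inj' hb2).1 h2)
      rw [← card_image_of_injOn hinj]
      refine t6 _ ?_ ?_
      · intro c hc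
        obtain ⟨a, ha, rfl⟩ := mem_image.1 hc
        exact hA a ha
      · intro c hc c' hc' hne
        obtain ⟨a, ha, rfl⟩ := mem_image.1 hc
        obtain ⟨a', ha', rfl⟩ := mem_image.1 hc'
        have hne' : a ≠ a' := by
          rintro rfl
          exact hne rfl
        have h1 : a.1 / b.1 / (a'.1 / b.1) = a.1 / a'.1 := by
          have := (hBA a' (hAB ha')).1
          field_simp
        have h2 : a.2 / b.2 / (a'.2 / b.2) = a.2 / a'.2 := by
          have := (hBA a' (hAB ha')).2.1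
          field_simp
        show ¬ (Lpw 2 v (a.1 / b.1 / (a'.1 / b.1)) ∧ Lpw 2 v (a.2 / b.2 / (a'.2 / b.2)))
        rw [h1, h2]
        exact hBd a (hAB ha) a' (hAB ha') hne')
  refine ⟨C, ?_, fun b hb => hBA b (hCB hb), hCd⟩
  rw [pow_add] at hBc
  omega

end

/-- **JOB LSS.** -/
theorem lss (hATP : Pool.Agent.Q283.PQ.S_ATP) (hAPX : Pool.Agent.Q283.FG.S_APX) (hIDE : Pool.Agent.Q283.FG.S_IDE)
    (hLCP : Pool.Agent.Q283.FG.S_LCP) (hRLC : Pool.Agent.Q283.FG.S_RLC) (hBAS : Pool.Agent.Q7.LK.S_BAS) :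
    Pool.Agent.Q283.PQ.S_LSS := by
  classical
  intro F _ _ ζ hζ y f u r π g B hfin e he S hS 𝓛 𝓛' hM hM'
  have hSm : ∀ v ∈ S, Sm y v := fun v hv => ⟨2, Nat.prime_two, B.two, hS v hv⟩
  have hSfin : S.Finite := hfin.subset hSm
  have iS : Fintype {v : HeightOneSpectrum (𝓞 F) // v ∈ S} := hSfin.fintype
  have hAS : ∀ v a b, AS S v e a b → AX v e a b := by
    intro v a b h
    by_cases hv : v ∈ S
    · exact (hATP F e he v).2.2.2.2.1 a b (h.1 hv)
    · exact h.2 hv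
  -- the inclusion
  have hle : 𝓛' ≤ 𝓛 := by
    intro z hz
    obtain ⟨x, hx⟩ : ∃ x : (Fin f → ZMod 2) × (Fin f → ZMod 2), x = (fun t => (z.2 t).1, fun t => (z.1 t).1) :=
      ⟨_, rfl⟩
    obtain ⟨x', hx'⟩ : ∃ x : (Fin f → ZMod 2) × (Fin f → ZMod 2), x = (fun t => (z.2 t).2, fun t => (z.1 t).2) :=
      ⟨_, rfl⟩
    have hzx : z = ((fun t => (x.2 t, x'.2 t)), fun t => (x.1 t, x'.1 t)) := by
      rw [hx, hx']
    have hsq : ∀ x : (Fin f → ZMod 2) × (Fin f → ZMod 2),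
        mon r x.1 * mon u x.2 ≠ 0 ∧ Nr y (mon r x.1 * mon u x.2 * mon r x.1 * mon u x.2) := by
      intro x
      have h0 := mul_ne_zero (mon_ne B.re x.1) (mon_ne B.ue x.2)
      refine ⟨h0, ?_⟩
      have h1 := nr_sq hBAS y h0
      have h2 : (mon r x.1 * mon u x.2) ^ 2 = mon r x.1 * mon u x.2 * mon r x.1 * mon u x.2 := by ring
      rwa [h2] at h1
    have h1 := hM' _ _ x x' (hsq x).1 (hsq x').1 (hsq x).2 (hsq x').2
    have h2 := hM _ _ x x' (hsq x).1 (hsq x').1 (hsq x).2 (hsq x').2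
    rw [← hzx] at h1 h2
    obtain ⟨h3, h4⟩ := h1.1 hz
    exact h2.2 ⟨fun v hv => hAS v _ _ (h3 v hv), h4⟩
  refine ⟨hle, ?_⟩
  -- the representatives
  choose C hCc hCA hCd using fun v : {v : HeightOneSpectrum (𝓞 F) // v ∈ S} => local_reps hBAS hATP hIDE v.1 e he
  have hextne : ∀ t : {v : HeightOneSpectrum (𝓞 F) // v ∈ S} → F, ∃ t' : HeightOneSpectrum (𝓞 F) → F,
      (∀ w, t w ≠ 0) → (∀ v, t' v.1 = t v) ∧ (∀ v, v ∉ S → t' v = 1) ∧ ∀ w, t' w ≠ 0 := by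
    intro t
    refine ⟨fun v => if h : v ∈ S then t ⟨v, h⟩ else 1, fun ht => ⟨fun v => dif_pos v.2, fun v hv => dif_neg hv,
      fun w => ?_⟩⟩
    by_cases h : w ∈ S
    · simp only [dif_pos h]
      exact ht _
    · simp only [dif_neg h]
      exact one_ne_zero
  -- approximation
  have hap0 : ∀ t : {v : HeightOneSpectrum (𝓞 F) // v ∈ S} → F, ∃ a : F, (∀ v, t v ≠ 0) → a ≠ 0 ∧
      (∀ v : {v : HeightOneSpectrum (𝓞 F) // v ∈ S}, Lpw 2 v.1 (a / t v)) ∧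
      (∀ v : HeightOneSpectrum (𝓞 F), Sm y v → v ∉ S → Lpw 2 v a) ∧ ∀ φ : F →+* ℝ, 0 < φ a := by
    intro t
    by_cases ht : ∀ v, t v ≠ 0
    · obtain ⟨t', ht'⟩ := hextne t
      obtain ⟨h1, h1', h2⟩ := ht' ht
      obtain ⟨a, ha, h3, h4⟩ := apx_sgn hBAS hAPX hfin.toFinset t' (fun _ => 1) h2 (fun _ => one_ne_zero)
      refine ⟨a, fun _ => ⟨ha, fun v => ?_, fun v hv hvS => ?_, fun φ => ?_⟩⟩
      · have h5 := h3 v.1 (hfin.mem_toFinset.2 (hSm v.1 v.2))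
        rwa [h1] at h5
      · have h5 := h3 v (hfin.mem_toFinset.2 hv)
        rwa [h1' v hvS, div_one] at h5
      · have h5 := h4 φ
        rwa [mul_one] at h5
    · exact ⟨1, fun h => absurd h ht⟩
  choose a ha using hap0
  have hne : ∀ t ∈ Fintype.piFinset C, (∀ v, (t v).1 ≠ 0) ∧ ∀ v, (t v).2 ≠ 0 := by
    intro t ht
    exact ⟨fun v => (hCA v _ (Fintype.mem_piFinset.1 ht v)).1, fun v => (hCA v _ (Fintype.mem_piFinset.1 ht v)).2.1⟩
  have hcl : ∀ t : {v : HeightOneSpectrum (𝓞 F) // v ∈ S} → F × F,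
      ∃ x x' : (Fin f → ZMod 2) × (Fin f → ZMod 2),
      t ∈ Fintype.piFinset C → ((((fun j => (x.2 j, x'.2 j)), fun j => (x.1 j, x'.1 j)) :
        (Fin f → U2) × (Fin f → U2)) ∈ 𝓛) ∧
        Nr y (a (fun v => (t v).1) * mon r x.1 * mon u x.2) ∧
        Nr y (a (fun v => (t v).2) * mon r x'.1 * mon u x'.2) := by
    intro t
    by_cases ht : t ∈ Fintype.piFinset C
    · obtain ⟨a0, a1, a2, a3⟩ := ha (fun v => (t v).1) (hne t ht).1
      obtain ⟨b0, b1, b2, b3⟩ := ha (fun v => (t v).2) (hne t ht).2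
      obtain ⟨x, hx, -⟩ := B.cls _ a0
      obtain ⟨x', hx', -⟩ := B.cls _ b0
      refine ⟨x, x', fun _ => ⟨(hM _ _ x x' a0 b0 hx hx').2 ⟨fun v hv => ?_, fun φ => ?_⟩, hx, hx'⟩⟩
      · by_cases hvS : v ∈ S
        · have h1 := hCA ⟨v, hvS⟩ _ (Fintype.mem_piFinset.1 ht ⟨v, hvS⟩)
          have h2 := (hLCP F e he v).2.1 _ _ _ _ (a1 ⟨v, hvS⟩) (b1 ⟨v, hvS⟩) h1
          have h0 := (hne t ht).1 ⟨v, hvS⟩
          have h0' := (hne t ht).2 ⟨v, hvS⟩
          have h3 : (t ⟨v, hvS⟩).1 * (a (fun v => (t v).1) / (t ⟨v, hvS⟩).1) = a (fun v => (t v).1) := by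
            field_simp
          have h3' : (t ⟨v, hvS⟩).2 * (a (fun v => (t v).2) / (t ⟨v, hvS⟩).2) = a (fun v => (t v).2) := by
            field_simp
          rwa [h3, h3'] at h2
        · exact (hLCP F e he v).2.2.2 _ _ (Or.inl ⟨a2 v hv hvS, b2 v hv hvS⟩)
      · exact (hRLC F e he φ).2.1 _ _ (a3 φ) (b3 φ)
    · exact ⟨0, 0, fun h => absurd h ht⟩
  choose x x' hx using hcl
  -- different families give different classes modulo `𝓛'`
  obtain ⟨w, hw⟩ : ∃ w : ({v : HeightOneSpectrum (𝓞 F) // v ∈ S} → F × F) → (Fin f → U2) × (Fin f → U2),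
      w = fun t => ((fun j => ((x t).2 j, (x' t).2 j)), fun j => ((x t).1 j, (x' t).1 j)) := ⟨_, rfl⟩
  have hinj : ∀ t ∈ Fintype.piFinset C, ∀ t' ∈ Fintype.piFinset C, w t - w t' ∈ 𝓛' → t = t' := by
    intro t ht t' ht' hmem
    obtain ⟨a0, a1, a2, a3⟩ := ha (fun v => (t v).1) (hne t ht).1
    obtain ⟨b0, b1, b2, b3⟩ := ha (fun v => (t v).2) (hne t ht).2
    obtain ⟨c0, c1, c2, c3⟩ := ha (fun v => (t' v).1) (hne t' ht').1
    obtain ⟨d0, d1, d2, d3⟩ := ha (fun v => (t' v).2) (hne t' ht').2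
    obtain ⟨-, p1, p2⟩ := hx t ht
    obtain ⟨-, q1, q2⟩ := hx t' ht'
    have k1 := cls_sub hBAS B.ue B.re c0 p1 q1
    have k2 := cls_sub hBAS B.ue B.re d0 p2 q2
    have k3 := hM' _ _ (x t - x t') (x' t - x' t') (div_ne_zero a0 c0) (div_ne_zero b0 d0) k1 k2
    have k4 : (((fun j => ((x t - x t').2 j, (x' t - x' t').2 j)), fun j => ((x t - x t').1 j, (x' t - x' t').1 j)) :
        (Fin f → U2) × (Fin f → U2)) = w t - w t' := by
      rw [hw]
      rfl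
    rw [k4] at k3
    obtain ⟨k5, -⟩ := k3.1 hmem
    funext v
    by_contra hn
    refine hCd v (t v) (Fintype.mem_piFinset.1 ht v) (t' v) (Fintype.mem_piFinset.1 ht' v) hn ?_
    have k6 := (k5 v.1 (hSm v.1 v.2)).1 v.2
    have k7 := (hATP F e he v.1).2.1 _ _ _ _ (lpw_mul hBAS (lpw_inv hBAS (a1 v)) (c1 v))
      (lpw_mul hBAS (lpw_inv hBAS (b1 v)) (d1 v)) k6
    have n1 := (hne t ht).1 v
    have n2 := (hne t ht).2 v
    have n3 := (hne t' ht').1 v
    have n4 := (hne t' ht').2 v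
    have e1 : a (fun v => (t v).1) / a (fun v => (t' v).1) * ((a (fun v => (t v).1) / (t v).1)⁻¹ *
        (a (fun v => (t' v).1) / (t' v).1)) = (t v).1 / (t' v).1 := by
      field_simp
    have e2 : a (fun v => (t v).2) / a (fun v => (t' v).2) * ((a (fun v => (t v).2) / (t v).2)⁻¹ *
        (a (fun v => (t' v).2) / (t' v).2)) = (t v).2 / (t' v).2 := by
      field_simp
    rwa [e1, e2] at k7
  -- the count
  have hcard : Nat.card 𝓛' * (Fintype.piFinset C).card ≤ Nat.card 𝓛 := by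
    rw [← Nat.card_eq_finsetCard, ← Nat.card_prod]
    refine Nat.card_le_card_of_injective
      (fun z : 𝓛' × ↥(Fintype.piFinset C) => (⟨z.1.1 + w z.2.1, 𝓛.add_mem (hle z.1.2) (by
        rw [hw]
        exact (hx z.2.1 z.2.2).1)⟩ : 𝓛)) ?_
    rintro ⟨l, t⟩ ⟨l', t'⟩ h
    have h1 : l.1 + w t.1 = l'.1 + w t'.1 := congrArg Subtype.val h
    have h2 : w t.1 - w t'.1 = l'.1 - l.1 := by
      rw [sub_eq_sub_iff_add_eq_add, add_comm, h1]
    have h3 : t.1 = t'.1 := hinj t.1 t.2 t'.1 t'.2 (by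
      rw [h2]
      exact 𝓛'.sub_mem l'.2 l.2)
    rw [h3] at h1
    exact Prod.ext (Subtype.ext (add_right_cancel h1)) (Subtype.ext h3)
  refine le_trans (Nat.mul_le_mul_left _ ?_) hcard
  rw [Fintype.card_piFinset, finsum_eq_sum_of_fintype, ← Finset.prod_pow_eq_pow_sum]
  exact Finset.prod_le_prod (fun v _ => Nat.zero_le _) fun v _ => hCc v

end Pool.Agent.Q229.PQ
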